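import Pool.Agent.H96.PSAlg

set_option autoImplicit false
open Filter Topology

namespace Pool.Agent.Results.MP_30394b_an.StrongAlg
open Pool.Agent.H96.Lacunary Pool.Agent.H96.Flat Pool.Agent.H96.PSAlg

/-- A continuous function on the unit interval is smooth (one-sided derivatives at the ends) and
its Taylor series at every point of the interval has radius of convergence zero. -/
def IsPS {K : Type} [RCLike K] (g : C(Set.Icc (0 : ℝ) 1, K)) : Prop :=
  ContDiffOn ℝ (⊤ : ℕ∞) (Set.IccExtend zero_le_one g) (Set.Icc 0 1) ∧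
    ∀ x ∈ Set.Icc (0 : ℝ) 1, (FormalMultilinearSeries.ofScalars K (fun n : ℕ =>
      iteratedDerivWithin n (Set.IccExtend zero_le_one g) (Set.Icc 0 1) x / (n.factorial : K))).radius = 0

theorem isPS_of {K : Type} [RCLike K] (g : C(Set.Icc (0 : ℝ) 1, K)) (G : ℝ → K)
    (hG : ContDiff ℝ (⊤ : ℕ∞) G) (h : ∀ x, g x = G x) (hr : ∀ x, radK G x = 0) : IsPS g := by
  have he : Set.EqOn (Set.IccExtend zero_le_one g) G (Set.Icc 0 1) := by
    intro x hx
    rw [Set.IccExtend_of_mem _ _ hx, h]
  refine ⟨hG.contDiffOn.congr he, fun x hx => ?_⟩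
  rw [← hr x, radK]
  congr 2
  funext n
  rw [iteratedDerivWithin_congr he hx,
    iteratedDerivWithin_eq_iteratedDeriv (uniqueDiffOn_Icc zero_lt_one) (smooth_at hG x n) hx]

theorem adjoin_poly {K A : Type} [Field K] [CommRing A] [Algebra K A] (S T : Set A) (hT : T ⊆ S)
    (g : A) (hg : g ∈ NonUnitalAlgebra.adjoin K T) :
    ∃ P : MvPolynomial S K, MvPolynomial.aeval (fun s : S => (s : A)) P = g ∧
      ∀ v : S → K, (∀ s : S, (s : A) ∈ T → v s = 0) → MvPolynomial.eval v P = 0 := by
  induction hg using NonUnitalAlgebra.adjoin_induction with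
  | mem x hx => exact ⟨MvPolynomial.X ⟨x, hT hx⟩, by simp, fun v hv => by simpa using hv ⟨x, hT hx⟩ hx⟩
  | add x y _ _ hx hy =>
    obtain ⟨P, hP, hP'⟩ := hx
    obtain ⟨Q, hQ, hQ'⟩ := hy
    exact ⟨P + Q, by simp [hP, hQ], fun v hv => by simp [hP' v hv, hQ' v hv]⟩
  | zero => exact ⟨0, by simp, by simp⟩
  | mul x y _ _ hx hy =>
    obtain ⟨P, hP, hP'⟩ := hx
    obtain ⟨Q, hQ, hQ'⟩ := hy
    exact ⟨P * Q, by simp [hP, hQ], fun v hv => by simp [hP' v hv]⟩
  | smul r x _ hx =>
    obtain ⟨P, hP, hP'⟩ := hx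
    exact ⟨r • P, by simp [hP], fun v hv => by simp [hP' v hv]⟩

/-- For real or complex scalars, the everywhere Pringsheim singular functions are strongly
algebrable with continuum many free generators, which form a minimal system of generators. -/
theorem result (K : Type) [RCLike K] :
    ∃ S : Set C(Set.Icc (0 : ℝ) 1, K), Cardinal.mk S = Cardinal.continuum ∧
      (∀ P : MvPolynomial S K, P ≠ 0 → MvPolynomial.constantCoeff P = 0 →
        MvPolynomial.aeval (fun s : S => (s : C(Set.Icc (0 : ℝ) 1, K))) P ≠ 0) ∧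
      (∀ g ∈ NonUnitalAlgebra.adjoin K S, g ≠ 0 → IsPS g) ∧
      (∀ T : Set C(Set.Icc (0 : ℝ) 1, K), T ⊂ S →
        NonUnitalAlgebra.adjoin K T ≠ NonUnitalAlgebra.adjoin K S) := by
  classical
  obtain ⟨f, hf, hd, hr⟩ := exists_base
  let b := Module.Free.chooseBasis ℚ ℝ
  have hcont : ∀ c : ℝ, Continuous (fun x : Set.Icc (0 : ℝ) 1 => ((Real.exp (c * f x) : ℝ) : K)) := by
    intro c
    have := hf.continuous
    fun_prop
  let s : Module.Free.ChooseBasisIndex ℚ ℝ → C(Set.Icc (0 : ℝ) 1, K) := fun i => ⟨_, hcont (b i)⟩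
  have hj : ∀ t : Set.range s, ∃ i, s i = t := fun t => t.2
  choose j hj using hj
  have hjinj : Function.Injective j := fun t u h => Subtype.ext (by rw [← hj t, ← hj u, h])
  have hli : LinearIndependent ℚ (b ∘ j) := b.linearIndependent.comp j hjinj
  have hev : ∀ (P : MvPolynomial (Set.range s) K) (x : Set.Icc (0 : ℝ) 1),
      MvPolynomial.aeval (fun t : Set.range s => (t : C(Set.Icc (0 : ℝ) 1, K))) P x =
        MvPolynomial.aeval (ex (b ∘ j) : _ → ℝ → K) P (f x) := by
    intro P x
    induction P using MvPolynomial.induction_on with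
    | C a => simp
    | add p q hp hq => simp [hp, hq]
    | mul_X p i hp =>
      simp only [map_mul, MvPolynomial.aeval_X, ContinuousMap.mul_apply, Pi.mul_apply, hp]
      rw [← hj i]
      rfl
  have hPS : ∀ P : MvPolynomial (Set.range s) K, P ≠ 0 → MvPolynomial.constantCoeff P = 0 →
      IsPS (MvPolynomial.aeval (fun t : Set.range s => (t : C(Set.Icc (0 : ℝ) 1, K))) P) := by
    intro P hP h0
    refine isPS_of _ (fun x => MvPolynomial.aeval (ex (b ∘ j) : _ → ℝ → K) P (f x)) ?_ (hev P) ?_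
    · rw [contDiff_iff_contDiffAt]
      exact fun x => (ex_analytic _ P (f x)).contDiffAt.comp x hf.contDiffAt
    · exact fun x => radK_comp f _ x (smooth_at hf x) (hd x) (ex_analytic _ P _)
        (ex_nonconst _ hli P hP h0 _) (hr x)
  have h0PS : ¬ IsPS (0 : C(Set.Icc (0 : ℝ) 1, K)) := by
    intro h
    have h1 := h.2 0 (by simp)
    have he : Set.IccExtend zero_le_one (0 : C(Set.Icc (0 : ℝ) 1, K)) = fun _ => 0 := by
      funext x; rfl
    rw [he, FormalMultilinearSeries.radius_eq_top_of_eventually_eq_zero] at h1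
    · simp at h1
    · refine Eventually.of_forall fun n => ?_
      apply FormalMultilinearSeries.ofScalars_eq_zero_of_scalar_zero
      simp [iteratedDerivWithin_const]
  have hind : ∀ P : MvPolynomial (Set.range s) K, P ≠ 0 → MvPolynomial.constantCoeff P = 0 →
      MvPolynomial.aeval (fun t : Set.range s => (t : C(Set.Icc (0 : ℝ) 1, K))) P ≠ 0 := by
    intro P hP h0 h
    exact h0PS (h ▸ hPS P hP h0)
  have hcc : ∀ P : MvPolynomial (Set.range s) K,
      MvPolynomial.constantCoeff P = MvPolynomial.eval (fun _ => 0) P := by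
    intro P
    rw [MvPolynomial.eval_zero']
  refine ⟨Set.range s, ?_, hind, ?_, ?_⟩
  · have hs : Function.Injective s := by
      intro i i' h
      have h1 : f 0 ≠ f 1 := by
        intro h2
        obtain ⟨c, -, hc⟩ := exists_deriv_eq_zero zero_lt_one hf.continuous.continuousOn h2
        exact hd c hc
      have h2 : ∀ x : Set.Icc (0 : ℝ) 1, b i * f x = b i' * f x := by
        intro x
        have := DFunLike.congr_fun h x
        simpa [s] using this
      have h3 := h2 ⟨0, by simp⟩
      have h4 := h2 ⟨1, by simp⟩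
      simp only at h3 h4
      have h5 : (b i - b i') * (f 0 - f 1) = 0 := by linarith
      rcases mul_eq_zero.mp h5 with h6 | h6
      · exact b.injective (sub_eq_zero.mp h6)
      · exact absurd (sub_eq_zero.mp h6) h1
    rw [Cardinal.mk_range_eq s hs, b.mk_eq_rank'', Real.rank_rat_real]
  · intro g hg hg0
    obtain ⟨P, rfl, hP⟩ := adjoin_poly (K := K) _ _ le_rfl g hg
    refine hPS P (fun h => hg0 (by rw [h, map_zero])) ?_
    rw [hcc]
    exact hP _ (fun _ _ => rfl)
  · intro T hT h
    obtain ⟨t, ht, htT⟩ := Set.exists_of_ssubset hT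
    have h1 : t ∈ NonUnitalAlgebra.adjoin K T := h ▸ NonUnitalAlgebra.subset_adjoin K ht
    obtain ⟨P, hP, hP'⟩ := adjoin_poly (K := K) _ T hT.subset t h1
    refine hind (P - MvPolynomial.X ⟨t, ht⟩) ?_ ?_ (by simp [hP])
    · intro h2
      have h3 := hP' (fun u => if (u : C(Set.Icc (0 : ℝ) 1, K)) ∈ T then 0 else 1)
        (fun u hu => if_pos hu)
      rw [sub_eq_zero.mp h2] at h3
      simp [htT] at h3
    · rw [map_sub, MvPolynomial.constantCoeff_X, sub_zero, hcc]
      exact hP' _ (fun _ _ => rfl)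

end Pool.Agent.Results.MP_30394b_an.StrongAlg
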